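import Pool.Agent.W_7742d_h74.Stmt
import Pool.Agent.W_7742b_h74.Final
import Pool.Agent.W_7742c_h74.Pos

set_option autoImplicit false

noncomputable section

namespace Pool.Agent.H74F

open Filter Topology ComplexConjugate Pool.Agent.H74C Pool.Agent.H74D Pool.Agent.H74E

lemma dickson_int {t : ℝ} (ht : ∃ m : ℤ, t = m) (k : ℕ) : ∃ m : ℤ, dickson t k = m := by
  obtain ⟨m, rfl⟩ := ht
  suffices h : (∃ a : ℤ, dickson (m : ℝ) k = a) ∧ ∃ a : ℤ, dickson (m : ℝ) (k + 1) = a from h.1
  induction k with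
  | zero =>
    refine ⟨⟨2, ?_⟩, m, ?_⟩
    · simp [dickson]
    · simp [dickson]
  | succ k ih =>
    obtain ⟨⟨a, ha⟩, b, hb⟩ := ih
    refine ⟨⟨b, hb⟩, m * b - a, ?_⟩
    rw [dickson, ha, hb]
    push_cast
    ring

/-- The addition formula. -/
lemma dickson_mul (t : ℝ) (k j : ℕ) :
    dickson t (k + j) * dickson t k = dickson t (k + j + k) + dickson t j := by
  induction k using Nat.twoStepInduction generalizing j with
  | zero => simp [dickson]; ring
  | one =>
    have : dickson t (1 + j + 1) = t * dickson t (1 + j) - dickson t j := by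
      rw [show 1 + j + 1 = j + 2 by ring, show 1 + j = j + 1 by ring, dickson]
    rw [this]
    simp [dickson]
    ring
  | more k ih1 ih2 =>
    -- `dickson (k + 2) = t dickson (k + 1) - dickson k`
    have e1 := ih2 (j + 1)
    have e2 := ih1 (j + 2)
    have f1 : k + 1 + (j + 1) = k + 2 + j := by ring
    have f2 : k + (j + 2) = k + 2 + j := by ring
    rw [f1] at e1
    rw [f2] at e2
    rw [show dickson t (k + 2) = t * dickson t (k + 1) - dickson t k from rfl, mul_sub,
      mul_left_comm, e1, e2]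
    have g1 : dickson t (k + 2 + j + (k + 2)) = t * dickson t (k + 2 + j + (k + 1)) -
        dickson t (k + 2 + j + k) := rfl
    have g2 : dickson t (j + 2) = t * dickson t (j + 1) - dickson t j := rfl
    rw [g1, g2]
    ring

lemma dickson_double (t : ℝ) (k : ℕ) : dickson t (2 * k) = dickson t k ^ 2 - 2 := by
  have h := dickson_mul t k 0
  rw [add_zero, show dickson t 0 = 2 from rfl] at h
  rw [two_mul, sq, h]
  ring

variable {K : Type} [Field K] [NumberField K] {π : SelfDualSystem K}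

lemma four_sq_ge {σ : K →+* ℂ} {p : ℕ} (h : ∃ m : ℤ, π.ad σ p = m) (k : ℕ) :
    1 ≤ fourPow π σ p k ^ 2 := by
  obtain ⟨m, hm⟩ := h
  obtain ⟨a, ha⟩ := dickson_int (t := π.ad σ p - 1) ⟨m - 1, by rw [hm]; push_cast; ring⟩ k
  unfold fourPow
  rw [dickson_double, ha]
  have e : (1 + (a : ℝ) + ((a : ℝ) ^ 2 - 2)) = ((a ^ 2 + a - 1 : ℤ) : ℝ) := by push_cast; ring
  rw [e]
  have hodd : Odd (a ^ 2 + a - 1) := by
    have : Even (a * (a + 1)) := Int.even_mul_succ_self a
    obtain ⟨r, hr⟩ := this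
    exact ⟨r - 1, by linarith⟩
  have hne : a ^ 2 + a - 1 ≠ 0 := by
    intro h0
    rw [h0] at hodd
    exact (by decide : ¬ Odd (0 : ℤ)) hodd
  have h1 : (1 : ℤ) ≤ (a ^ 2 + a - 1) ^ 2 := by
    have := Int.one_le_abs hne
    nlinarith [abs_nonneg (a ^ 2 + a - 1), sq_abs (a ^ 2 + a - 1)]
  exact_mod_cast h1

/-- The exceptional distribution does not occur. -/
theorem no_exceptional (hE : π.Exceptional) (σ : K →+* ℂ) (hC : Continuation π σ) : False := by
  classical
  -- the values are integers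
  have hint : ∀ p, π.Good p → ∃ m : ℤ, π.ad σ p = m := by
    intro p hp
    obtain ⟨n, hn⟩ := hE.values p hp
    refine ⟨π.ν p * n, ?_⟩
    unfold SelfDualSystem.ad
    rw [hn, map_intCast, Complex.intCast_re]
    push_cast
    rfl
  set c : Nat.Primes × ℕ → ℝ := fun x =>
    if π.Good x.1 then fourPow π σ x.1 (x.2 + 1) ^ 2 - 1 else 0 with hc
  set b : Nat.Primes × ℕ → ℝ := fun x => if (x.1 : ℕ) ∣ π.level then 1 else 0 with hb
  have hgood : ∀ p : Nat.Primes, π.Good p ↔ ¬ (p : ℕ) ∣ π.level := fun p =>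
    ⟨fun h => h.2, fun h => ⟨p.2, h⟩⟩
  have hc0 : ∀ x, 0 ≤ c x := by
    intro x
    rw [hc]
    simp only
    split_ifs with h
    · have := four_sq_ge (hint x.1 h) (x.2 + 1)
      linarith
    · exact le_rfl
  have hcoeff : ∀ (s : ℝ) (x : Nat.Primes × ℕ), fourCoeff π σ x.1 (x.2 + 1) /
      ((x.1 : ℕ) : ℝ) ^ (((x.2 : ℝ) + 1) * s) = (c x + (1 : ℕ) - (1 : ℕ) * b x) * pk s x := by
    intro s x
    have hp : (0 : ℝ) < ((x.1 : ℕ) : ℝ) := by exact_mod_cast x.1.2.pos
    rw [Real.rpow_def_of_pos hp]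
    unfold fourCoeff pk
    rw [hc, hb]
    simp only
    by_cases h : π.Good x.1
    · have h' := (hgood x.1).1 h
      rw [if_pos h, if_pos h, if_neg h', Real.exp_neg]
      push_cast
      have : Real.log ((x.1 : ℕ) : ℝ) * (((x.2 : ℝ) + 1) * s) =
          s * (((x.2 : ℝ) + 1) * Real.log ((x.1 : ℕ) : ℝ)) := by ring
      rw [this]
      ring
    · have h' : (x.1 : ℕ) ∣ π.level := by
        by_contra hcon
        exact h ((hgood x.1).2 hcon)
      rw [if_neg h, if_neg h, if_pos h']
      simp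
  obtain ⟨hsum, g, hg, hgs⟩ := hC
  have key := positivity_closed (σ0 := 1 / 4) (by norm_num) (by norm_num) 1 c b hc0
    (fun x => by rw [hb]; simp only; split_ifs <;> norm_num)
    (fun s hs => by
      have := summable_bad π.level_pos (s := s) (by linarith)
      exact this)
    (fun s hs => by
      have h1 := hsum s hs
      simp only [hcoeff] at h1
      have h2 := summable_bad π.level_pos (s := s) (by linarith)
      have h3 := summable_pk hs
      refine ((h1.sub h3).add h2).congr fun x => ?_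
      rw [hb]
      push_cast
      ring)
    g hg
    (fun s hs => by
      rw [hgs s hs, pow_one]
      simp only [hcoeff])
    (1 / 4) le_rfl
  -- the primes with `ad = -1`
  set f : ℕ → ℝ := fun p => if π.ad σ p = -1 then 1 else 0 with hf
  have hf0 : ∀ p, 0 ≤ f p := by
    intro p
    rw [hf]
    simp only
    split_ifs <;> norm_num
  have hf1 : ∀ p, f p ≤ 1 := by
    intro p
    rw [hf]
    simp only
    split_ifs <;> norm_num
  have hslice : Summable fun p : Nat.Primes => c (p, 1) * ((p : ℕ) : ℝ) ^ (-(1 / 2) : ℝ) := by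
    have h2 := key.comp_injective (i := fun p : Nat.Primes => (p, 1))
      (fun p q hpq => (Prod.mk.inj hpq).1)
    refine (h2.mul_left 2).congr fun p => ?_
    have hp : (0 : ℝ) < ((p : ℕ) : ℝ) := by exact_mod_cast p.2.pos
    change 2 * (c (p, 1) * pk (1 / 4) (p, 1)) = _
    rw [pk_eq, ← Real.rpow_natCast, ← Real.rpow_mul hp.le]
    norm_num
    ring
  have hbad : Summable fun p : Nat.Primes => if (p : ℕ) ∣ π.level then (1 : ℝ) else 0 := by
    apply summable_of_hasFiniteSupport
    refine Set.Finite.subset (s := (fun p : Nat.Primes => (p : ℕ)) ⁻¹'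
      (π.level.primeFactors : Set ℕ)) ?_ ?_
    · exact Set.Finite.preimage (Subtype.val_injective.injOn) (Finset.finite_toSet _)
    · intro p hp
      by_contra hcon
      apply hp
      have : ¬ (p : ℕ) ∣ π.level := fun h => hcon (by
        simp only [Set.mem_preimage, Finset.mem_coe, Nat.mem_primeFactors]
        exact ⟨p.2, h, π.level_pos.ne'⟩)
      simp [this]
  have hfs : Summable fun p : Nat.Primes => f p * ((p : ℕ) : ℝ) ^ (-(1 / 2) : ℝ) := by
    refine Summable.of_nonneg_of_le (fun p => mul_nonneg (hf0 _) (by positivity)) ?_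
      (hslice.add hbad)
    intro p
    have h1p : (1 : ℝ) ≤ ((p : ℕ) : ℝ) := by exact_mod_cast p.2.one_lt.le
    have hpp : (0 : ℝ) ≤ ((p : ℕ) : ℝ) ^ (-(1 / 2) : ℝ) := by positivity
    have hpp1 : ((p : ℕ) : ℝ) ^ (-(1 / 2) : ℝ) ≤ 1 :=
      Real.rpow_le_one_of_one_le_of_nonpos h1p (by norm_num)
    by_cases hd : (p : ℕ) ∣ π.level
    · rw [if_pos hd]
      have h2 := mul_nonneg (hc0 (p, 1)) hpp
      have h3 := mul_le_mul (hf1 p) hpp1 hpp (by norm_num)
      linarith
    · rw [if_neg hd, add_zero]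
      refine mul_le_mul_of_nonneg_right ?_ hpp
      have hg' := (hgood p).2 hd
      rw [hf]
      simp only
      split_ifs with had
      · have : c (p, 1) = fourPow π σ p (1 + 1) ^ 2 - 1 := by
          rw [hc]
          simp only
          rw [if_pos hg']
        rw [this]
        have h4 : fourPow π σ p (1 + 1) = 5 := by
          unfold fourPow
          rw [had, dickson_double]
          simp only [dickson]
          norm_num
        rw [h4]
        norm_num
      · exact hc0 _
  -- the density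
  have hdens := hE.neg_one σ
  unfold HasDensity at hdens
  have hlim := (hasMean_iff.1 hdens).2
  set A : ℝ := ∑' p : Nat.Primes, f p * ((p : ℕ) : ℝ) ^ (-(1 / 2) : ℝ) with hA
  have hle : ∀ s : ℝ, 1 < s → ∑' p : Nat.Primes, (if π.ad σ p = -1 then (1 : ℝ) else 0) * wt s p ≤
      2 * A := by
    intro s hs
    rw [hA, ← tsum_mul_left]
    refine Summable.tsum_le_tsum (fun p => ?_) ((hasMean_iff.1 hdens).1 s hs) (hfs.mul_left 2)
    have hp : (0 : ℝ) < ((p : ℕ) : ℝ) := by exact_mod_cast p.2.pos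
    have h1p : (1 : ℝ) ≤ ((p : ℕ) : ℝ) := by exact_mod_cast p.2.one_lt.le
    have hw : wt s p ≤ 2 * ((p : ℕ) : ℝ) ^ (-(1 / 2) : ℝ) := by
      unfold wt
      have hlog : Real.log ((p : ℕ) : ℝ) ≤ 2 * ((p : ℕ) : ℝ) ^ (1 / 2 : ℝ) := by
        have h1 : Real.log (((p : ℕ) : ℝ) ^ (1 / 2 : ℝ)) ≤ ((p : ℕ) : ℝ) ^ (1 / 2 : ℝ) - 1 :=
          Real.log_le_sub_one_of_pos (by positivity)
        rw [Real.log_rpow hp] at h1
        linarith
      have hps : ((p : ℕ) : ℝ) ^ (1 : ℝ) ≤ ((p : ℕ) : ℝ) ^ s :=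
        Real.rpow_le_rpow_of_exponent_le h1p hs.le
      rw [div_le_iff₀ (by positivity)]
      have e1 : ((p : ℕ) : ℝ) ^ (-(1 / 2) : ℝ) * ((p : ℕ) : ℝ) ^ (1 : ℝ) =
          ((p : ℕ) : ℝ) ^ (1 / 2 : ℝ) := by
        rw [← Real.rpow_add hp]
        norm_num
      have hpp : (0 : ℝ) ≤ ((p : ℕ) : ℝ) ^ (-(1 / 2) : ℝ) := by positivity
      have := mul_le_mul_of_nonneg_left hps hpp
      rw [e1] at this
      linarith
    have := mul_le_mul_of_nonneg_left hw (hf0 p)
    calc (if π.ad σ p = -1 then (1 : ℝ) else 0) * wt s p = f p * wt s p := rfl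
      _ ≤ f p * (2 * ((p : ℕ) : ℝ) ^ (-(1 / 2) : ℝ)) := this
      _ = 2 * (f p * ((p : ℕ) : ℝ) ^ (-(1 / 2) : ℝ)) := by ring
  have hzero : Tendsto (fun s : ℝ => (s - 1) * (2 * A)) (𝓝[>] 1) (𝓝 0) := by
    have : Tendsto (fun s : ℝ => (s - 1) * (2 * A)) (𝓝 1) (𝓝 ((1 - 1) * (2 * A))) :=
      ((continuous_id.sub continuous_const).mul continuous_const).tendsto 1
    rw [sub_self, zero_mul] at this
    exact this.mono_left nhdsWithin_le_nhds
  have hcontr : (1 / 3 : ℝ) ≤ 0 := by
    refine le_of_tendsto_of_tendsto hlim hzero ?_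
    filter_upwards [self_mem_nhdsWithin] with s hs
    have hs' : (1 : ℝ) < s := hs
    exact mul_le_mul_of_nonneg_left (hle s hs') (by linarith)
  norm_num at hcontr

/-- The theorem. -/
theorem main (h : KimShahidi π) : π.Tetrahedral ∨ π.Octahedral ∨ π.Icosahedral := by
  by_cases hT : π.Tetrahedral
  · exact Or.inl hT
  by_cases hO : π.Octahedral
  · exact Or.inr (Or.inl hO)
  right
  right
  obtain ⟨h1, h2⟩ := h hT hO
  rcases SelfDualSystem.main (π := π) h1 with h3 | h3
  · exact h3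
  · have σ : K →+* ℂ := Classical.choice inferInstance
    exact absurd (h2 σ) (fun hC => no_exceptional h3 σ hC)

end Pool.Agent.H74F
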