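import Pool.Agent.W_7742b_h74.Stmt

/-! Definitions for the statement: the Rankin-Selberg `L`-function of the fourth symmetric power. -/

noncomputable section

namespace Pool.Agent.H74F

open Filter Topology ComplexConjugate Pool.Agent.H74C Pool.Agent.H74D

/-- The number `z ^ k + z ^ (-k)` if `t = z + 1 / z`. -/
def dickson (t : ℝ) : ℕ → ℝ
  | 0 => 2
  | 1 => t
  | k + 2 => t * dickson t (k + 1) - dickson t k

variable {K : Type} [Field K] [NumberField K] (π : SelfDualSystem K)

/-- The trace of the `k`-th power of the Satake class (of rank five) with the trace `π.four σ p`: if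
the Satake class of rank three has the eigenvalues `1, z, 1 / z` (so that `π.ad σ p = 1 + z + 1 / z`),
then that class has the eigenvalues `z ^ 2, z, 1, 1 / z, 1 / z ^ 2`. -/
def fourPow (σ : K →+* ℂ) (p k : ℕ) : ℝ :=
  1 + dickson (π.ad σ p - 1) k + dickson (π.ad σ p - 1) (2 * k)

/-- The coefficient of `p ^ (-ks)` in the logarithm of the (partial) Rankin-Selberg `L`-function of
the representation of rank five with itself; it is `0` if `p` divides the level. -/
def fourCoeff (σ : K →+* ℂ) (p k : ℕ) : ℝ := by
  classical exact if π.Good p then fourPow π σ p k ^ 2 / k else 0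

/-- The analytic properties of the (partial) Rankin-Selberg `L`-function
`L(s) = exp (∑_p ∑_k (fourPow π σ p k) ^ 2 / (k p ^ (ks)))` of the representation of rank five with
itself, for real `s`: the series converges for `s > 1` (here `k = x.2 + 1`) and `(s - 1) L(s)`
extends to a real analytic function on `s > 0`. -/
def Continuation (σ : K →+* ℂ) : Prop :=
  (∀ s : ℝ, 1 < s → Summable fun x : Nat.Primes × ℕ =>
    fourCoeff π σ x.1 (x.2 + 1) / (x.1 : ℝ) ^ ((x.2 + 1) * s)) ∧
  ∃ g : ℝ → ℝ, (∀ s, 0 < s → AnalyticAt ℝ g s) ∧ ∀ s : ℝ, 1 < s → g s = (s - 1) *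
    Real.exp (∑' x : Nat.Primes × ℕ, fourCoeff π σ x.1 (x.2 + 1) / (x.1 : ℝ) ^ ((x.2 + 1) * s))

/-- The theorem of Kim and Shahidi (the fourth symmetric power of a cusp form on `GL_2` is cuspidal if
it is not dihedral, tetrahedral or octahedral) and the Rankin-Selberg theory: if the system is not of
tetrahedral or octahedral type, then Selberg orthogonality holds, and the Rankin-Selberg
`L`-functions of the representations of rank five can be continued. -/
def KimShahidi : Prop :=
  ¬ π.Tetrahedral → ¬ π.Octahedral → π.Orthogonal ∧ ∀ σ, Continuation π σ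

end Pool.Agent.H74F
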